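import Mathlib
import Pool.Agent.PackIndex.Defs

/-!
# Every non-amenable group is a union of two sets of density zero

`is₁₂(A) = inf_μ sup_y μ(A y)`, with `μ` running over the finitely supported probability measures on
the group `G`. We prove: if `G` is not amenable, there is `A ⊆ G` with `is₁₂(A) = is₁₂(G \ A) = 0`.
So every group with property (d) (in every finite partition of `G` some cell has `is₁₂ > 0`) is
amenable, and the same holds for property (a).

Proof. Let `K` be a minimal nonempty closed convex set of finitely additive probability measures on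
`G`, invariant under the left translations `(g k)(A) = k(g⁻¹ A)`. If `G` is not amenable, `K` is not
a single point, so some `B ⊆ G` has `a = inf_K k(B) < b = sup_K k(B)`. For every `c > a` minimality
gives for each `k ∈ K` some `x` with `k(x⁻¹ B) < c`; by compactness finitely many `x` suffice for all
`k ∈ K`, and the Hahn–Banach theorem gives a finitely supported probability measure `μ` with
`∑ μ(x) k(x⁻¹ B) < c` for all `k ∈ K`. Fix `z ∈ K` and put `φ(g) = z(g⁻¹ B) ∈ [a, b]`. Then
`∑ μ(x) φ(x y) < c` for every `y`, so `A = {φ ≥ (a + b) / 2}` has `is₁₂(A) = 0`, and by symmetry so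
does its complement.
-/

set_option autoImplicit false

namespace Pool.Agent.Results.MP_d97def_al.TwoSmallCells

open Pool.Agent.PackIndex
open scoped Classical

universe u

/-- `μ` is a finitely supported probability measure on `G`, given by the weights of the points. -/
def IsProb {G : Type u} (μ : G →₀ ℝ) : Prop :=
  (∀ x, 0 ≤ μ x) ∧ ∑ x ∈ μ.support, μ x = 1

/-- `μ(A)`: the sum of the weights of the points of `A`. -/
noncomputable def mass {G : Type u} (μ : G →₀ ℝ) (A : Set G) : ℝ :=
  ∑ x ∈ μ.support, A.indicator μ x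

/-- `is₁₂(A) = inf_μ sup_y μ(A y)`. -/
noncomputable def is12 {G : Type u} [Group G] (A : Set G) : ℝ :=
  ⨅ μ : {μ : G →₀ ℝ // IsProb μ}, ⨆ y : G, mass μ.1 ((fun a => a * y) '' A)

/-- The mass as a linear functional. -/
theorem mass_eq {G : Type u} (μ : G →₀ ℝ) (A : Set G) :
    mass μ A = Finsupp.linearCombination ℝ (fun x => A.indicator (fun _ => (1 : ℝ)) x) μ := by
  rw [Finsupp.linearCombination_apply, Finsupp.sum]
  refine Finset.sum_congr rfl (fun x _ => ?_)
  by_cases hx : x ∈ A
  · simp [hx]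
  · simp [hx]

theorem mass_nonneg {G : Type u} {μ : G →₀ ℝ} (h : IsProb μ) (A : Set G) : 0 ≤ mass μ A :=
  Finset.sum_nonneg (fun x _ => Set.indicator_nonneg (fun x _ => h.1 x) x)

/-- A witness bounds `is₁₂`. -/
theorem is12_le {G : Type u} [Group G] (A : Set G) (μ : G →₀ ℝ) (h : IsProb μ) (r : ℝ)
    (hr : ∀ y : G, mass μ ((fun a => a * y) '' A) ≤ r) : is12 A ≤ r := by
  refine (ciInf_le (f := fun μ : {μ : G →₀ ℝ // IsProb μ} =>
    ⨆ y : G, mass μ.1 ((fun a => a * y) '' A)) ?_ ⟨μ, h⟩).trans ?_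
  · refine ⟨0, ?_⟩
    rintro _ ⟨ν, rfl⟩
    exact Real.iSup_nonneg (fun y => mass_nonneg ν.2 _)
  · exact ciSup_le hr

/-- The finitely additive probability measures on `G`. -/
def means (G : Type u) : Set (Set G → ℝ) :=
  {m | (∀ A, 0 ≤ m A) ∧ m Set.univ = 1 ∧ ∀ A B, Disjoint A B → m (A ∪ B) = m A + m B}

theorem means_compl {G : Type u} {m : Set G → ℝ} (hm : m ∈ means G) (A : Set G) :
    m Aᶜ = 1 - m A := by
  have h := hm.2.2 A Aᶜ disjoint_compl_right
  rw [Set.union_compl_self, hm.2.1] at h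
  linarith

theorem means_le_one {G : Type u} {m : Set G → ℝ} (hm : m ∈ means G) (A : Set G) : m A ≤ 1 := by
  have h := means_compl hm A
  have h1 := hm.1 Aᶜ
  linarith

theorem isClosed_means (G : Type u) : IsClosed (means G) := by
  have h1 : IsClosed {m : Set G → ℝ | ∀ A, 0 ≤ m A} := by
    rw [Set.ofPred_forall]
    exact isClosed_iInter (fun A => isClosed_le continuous_const (continuous_apply A))
  have h2 : IsClosed {m : Set G → ℝ | m Set.univ = 1} :=
    isClosed_eq (continuous_apply _) continuous_const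
  have h3 : IsClosed {m : Set G → ℝ | ∀ A B, Disjoint A B → m (A ∪ B) = m A + m B} := by
    simp only [Set.ofPred_forall]
    refine isClosed_iInter (fun A => isClosed_iInter (fun B => isClosed_iInter (fun _ => ?_)))
    exact isClosed_eq (continuous_apply _) ((continuous_apply A).add (continuous_apply B))
  exact h1.inter (h2.inter h3)

theorem isCompact_means (G : Type u) : IsCompact (means G) := by
  refine IsCompact.of_isClosed_subset (s := Set.pi Set.univ (fun _ => Set.Icc (0 : ℝ) 1))
    (isCompact_univ_pi (fun _ => isCompact_Icc)) (isClosed_means G) ?_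
  intro m hm A _
  exact ⟨hm.1 A, means_le_one hm A⟩

theorem convex_means (G : Type u) : Convex ℝ (means G) := by
  intro m hm m' hm' s t hs ht hst
  refine ⟨fun A => ?_, ?_, fun A B hAB => ?_⟩
  · have := hm.1 A
    have := hm'.1 A
    simp only [Pi.add_apply, Pi.smul_apply, smul_eq_mul]
    positivity
  · simp only [Pi.add_apply, Pi.smul_apply, smul_eq_mul, hm.2.1, hm'.2.1, mul_one]
    exact hst
  · simp only [Pi.add_apply, Pi.smul_apply, smul_eq_mul, hm.2.2 A B hAB, hm'.2.2 A B hAB]
    ring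

theorem means_nonempty (G : Type u) [Group G] : (means G).Nonempty := by
  refine ⟨fun A => A.indicator (fun _ => (1 : ℝ)) 1, fun A => ?_, ?_, fun A B hAB => ?_⟩
  · exact Set.indicator_nonneg (fun _ _ => zero_le_one) 1
  · simp
  · exact congrFun (Set.indicator_union_of_disjoint hAB (fun _ : G => (1 : ℝ))) 1

/-- The left translate `(g m)(A) = m(g⁻¹ A)`. -/
def tr {G : Type u} [Group G] (g : G) (m : Set G → ℝ) : Set G → ℝ :=
  fun A => m ((fun x => g * x) ⁻¹' A)

theorem tr_tr {G : Type u} [Group G] (g h : G) (m : Set G → ℝ) : tr g (tr h m) = tr (g * h) m := by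
  funext A
  unfold tr
  congr 1
  ext x
  simp [mul_assoc]

theorem tr_one {G : Type u} [Group G] (m : Set G → ℝ) : tr 1 m = m := by
  funext A
  unfold tr
  congr 1
  ext x
  simp

theorem tr_mem_means {G : Type u} [Group G] (g : G) {m : Set G → ℝ} (hm : m ∈ means G) :
    tr g m ∈ means G := by
  refine ⟨fun A => hm.1 _, hm.2.1, fun A B hAB => ?_⟩
  exact hm.2.2 _ _ (hAB.preimage _)

/-- Closed convex invariant nonempty sets of measures. -/
def Good {G : Type u} [Group G] (K : Set (Set G → ℝ)) : Prop :=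
  K.Nonempty ∧ IsClosed K ∧ Convex ℝ K ∧ K ⊆ means G ∧ ∀ g : G, ∀ m ∈ K, tr g m ∈ K

theorem exists_minimal (G : Type u) [Group G] :
    ∃ K : Set (Set G → ℝ), Good K ∧ ∀ K', Good K' → K' ⊆ K → K' = K := by
  obtain ⟨K, hK⟩ := zorn_superset {K : Set (Set G → ℝ) | Good K} (by
    intro c hc hchain
    by_cases hne : c.Nonempty
    · refine ⟨⋂₀ c, ⟨?_, ?_, ?_, ?_, ?_⟩, fun s hs => Set.sInter_subset_of_mem hs⟩
      · have : Nonempty c := hne.to_subtype
        refine IsCompact.nonempty_sInter_of_directed_nonempty_isCompact_isClosed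
          ?_ (fun U hU => (hc hU).1) (fun U hU => ?_) (fun U hU => (hc hU).2.1)
        · intro x hx y hy
          rcases hchain.total hx hy with h | h
          · exact ⟨x, hx, subset_rfl, h⟩
          · exact ⟨y, hy, h, subset_rfl⟩
        exact (isCompact_means G).of_isClosed_subset (hc hU).2.1 (hc hU).2.2.2.1
      · exact isClosed_sInter (fun U hU => (hc hU).2.1)
      · exact convex_sInter (fun U hU => (hc hU).2.2.1)
      · obtain ⟨U, hU⟩ := hne
        exact (Set.sInter_subset_of_mem hU).trans (hc hU).2.2.2.1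
      · intro g m hm U hU
        exact (hc hU).2.2.2.2 g m (hm U hU)
    · rw [Set.not_nonempty_iff_eq_empty] at hne
      subst hne
      exact ⟨means G, ⟨means_nonempty G, isClosed_means G, convex_means G, subset_rfl,
        fun g m hm => tr_mem_means g hm⟩, fun s hs => hs.elim⟩)
  refine ⟨K, hK.1, fun K' hK' hsub => ?_⟩
  exact subset_antisymm hsub (hK.2 hK' hsub)

/-- A finite-dimensional separation: if every point of the compact convex set `C` has a coordinate
less than `c`, then some average of the coordinates is less than `c` on all of `C`. -/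
theorem exists_weights {ι : Type u} [Fintype ι] (C : Set (ι → ℝ)) (hconv : Convex ℝ C)
    (hcomp : IsCompact C) (hne : C.Nonempty) (c : ℝ) (h : ∀ v ∈ C, ∃ i, v i < c) :
    ∃ w : ι → ℝ, (∀ i, 0 ≤ w i) ∧ ∑ i, w i = 1 ∧ ∀ v ∈ C, ∑ i, w i * v i < c := by
  have hQconv : Convex ℝ {v : ι → ℝ | ∀ i, c ≤ v i} := by
    intro x hx y hy s t hs ht hst i
    simp only [Pi.add_apply, Pi.smul_apply, smul_eq_mul]
    have h1 : s * c ≤ s * x i := mul_le_mul_of_nonneg_left (hx i) hs
    have h2 : t * c ≤ t * y i := mul_le_mul_of_nonneg_left (hy i) ht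
    have h3 : s * c + t * c = c := by rw [← add_mul, hst, one_mul]
    linarith
  have hQcl : IsClosed {v : ι → ℝ | ∀ i, c ≤ v i} := by
    rw [Set.ofPred_forall]
    exact isClosed_iInter (fun i => isClosed_le continuous_const (continuous_apply i))
  have hdisj : Disjoint C {v : ι → ℝ | ∀ i, c ≤ v i} := by
    rw [Set.disjoint_left]
    intro v hv hv'
    obtain ⟨i, hi⟩ := h v hv
    exact absurd (hv' i) (not_le.2 hi)
  obtain ⟨f, r, s, hr, hrs, hs⟩ :=
    geometric_hahn_banach_compact_closed hconv hcomp hQconv hQcl hdisj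
  set lam : ι → ℝ := fun i => f (Pi.single i 1) with hlam
  have hf : ∀ v : ι → ℝ, f v = ∑ i, lam i * v i := by
    intro v
    conv_lhs => rw [pi_eq_sum_univ' v]
    rw [map_sum]
    refine Finset.sum_congr rfl (fun i _ => ?_)
    rw [map_smul, smul_eq_mul, mul_comm, hlam]
  have hpos : ∀ i, 0 ≤ lam i := by
    intro i
    by_contra hneg
    push Not at hneg
    have key : ∀ t : ℝ, 0 ≤ t → s < f (fun _ => c) + t * lam i := by
      intro t ht
      have h1 : s < f ((fun _ => c) + t • Pi.single i (1 : ℝ)) := by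
        refine hs _ (fun j => ?_)
        simp only [Pi.add_apply, Pi.smul_apply, smul_eq_mul]
        have : (0 : ℝ) ≤ (Pi.single i (1 : ℝ) : ι → ℝ) j := by
          rw [Pi.single_apply]
          split_ifs <;> norm_num
        nlinarith
      rwa [map_add, map_smul, smul_eq_mul] at h1
    have h0 := key 0 le_rfl
    have h1 := key ((f (fun _ => c) - s) / (-lam i)) (div_nonneg (by linarith) (by linarith))
    have h2 : (f (fun _ => c) - s) / (-lam i) * lam i = -(f (fun _ => c) - s) := by
      rw [div_neg, neg_mul, div_mul_cancel₀ _ hneg.ne]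
    linarith
  have hlt : ∀ v ∈ C, ∑ i, lam i * v i < (∑ i, lam i) * c := by
    intro v hv
    have h1 := hr v hv
    have h2 : s < f (fun _ => c) := hs _ (fun _ => le_rfl)
    rw [hf] at h1 h2
    rw [Finset.sum_mul]
    linarith
  have hsum : 0 < ∑ i, lam i := by
    rcases (Finset.sum_nonneg (fun i _ => hpos i)).lt_or_eq with hlt' | heq
    · exact hlt'
    · exfalso
      have hz : ∀ i ∈ Finset.univ, lam i = 0 :=
        (Finset.sum_eq_zero_iff_of_nonneg (fun i _ => hpos i)).1 heq.symm
      obtain ⟨v, hv⟩ := hne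
      have := hlt v hv
      rw [← heq, zero_mul, Finset.sum_eq_zero (fun i hi => by rw [hz i hi, zero_mul])] at this
      exact lt_irrefl _ this
  refine ⟨fun i => lam i / ∑ j, lam j, fun i => div_nonneg (hpos i) hsum.le, ?_, fun v hv => ?_⟩
  · rw [← Finset.sum_div, div_self hsum.ne']
  · have h1 := hlt v hv
    have h2 : ∑ i, lam i / (∑ j, lam j) * v i = (∑ i, lam i * v i) / ∑ j, lam j := by
      rw [Finset.sum_div]
      exact Finset.sum_congr rfl (fun i _ => by ring)
    rw [h2, div_lt_iff₀ hsum, mul_comm c]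
    exact h1

/-- The averaging lemma. -/
theorem exists_prob {G : Type u} [Group G] {K : Set (Set G → ℝ)} (hK : Good K)
    (hmin : ∀ K', Good K' → K' ⊆ K → K' = K) (B : Set G) (c : ℝ) (hc : ∃ k ∈ K, k B < c) :
    ∃ μ : G →₀ ℝ, IsProb μ ∧ ∀ k ∈ K, ∑ x ∈ μ.support, μ x * tr x k B < c := by
  obtain ⟨hne, hcl, hconv, hsub, hinv⟩ := hK
  have hcomp : IsCompact K := (isCompact_means G).of_isClosed_subset hcl hsub
  -- every `k` has a small translate
  have h1 : ∀ k ∈ K, ∃ x : G, tr x k B < c := by
    intro k hk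
    by_contra hcon
    push Not at hcon
    have hgood : Good (K ∩ {m | ∀ x : G, c ≤ tr x m B}) := by
      refine ⟨⟨k, hk, hcon⟩, hcl.inter ?_, hconv.inter ?_, fun m hm => hsub hm.1, ?_⟩
      · rw [Set.ofPred_forall]
        exact isClosed_iInter (fun x => isClosed_le continuous_const (continuous_apply _))
      · intro m hm m' hm' s t hs ht hst x
        have h1 : s * c ≤ s * tr x m B := mul_le_mul_of_nonneg_left (hm x) hs
        have h2 : t * c ≤ t * tr x m' B := mul_le_mul_of_nonneg_left (hm' x) ht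
        have h3 : s * c + t * c = c := by rw [← add_mul, hst, one_mul]
        have h4 : tr x (s • m + t • m') B = s * tr x m B + t * tr x m' B := rfl
        rw [h4]
        linarith
      · intro g m hm
        refine ⟨hinv g m hm.1, fun x => ?_⟩
        rw [tr_tr]
        exact hm.2 _
    have heq := hmin _ hgood Set.inter_subset_left
    obtain ⟨k', hk', hk'c⟩ := hc
    rw [← heq] at hk'
    have := hk'.2 1
    rw [tr_one] at this
    exact absurd hk'c (not_lt.2 this)
  -- finitely many translates suffice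
  obtain ⟨F, hF⟩ := hcomp.elim_finite_subcover (fun x : G => {m : Set G → ℝ | tr x m B < c})
    (fun x => isOpen_lt (continuous_apply _) continuous_const)
    (fun k hk => Set.mem_iUnion.2 (h1 k hk))
  -- separate
  obtain ⟨w, hw0, hw1, hw⟩ := exists_weights
    ((fun (m : Set G → ℝ) (x : F) => tr x.1 m B) '' K)
    (by
      rintro _ ⟨m, hm, rfl⟩ _ ⟨m', hm', rfl⟩ s t hs ht hst
      exact ⟨s • m + t • m', hconv hm hm' hs ht hst, rfl⟩)
    (hcomp.image (continuous_pi (fun x => continuous_apply _)))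
    (hne.image _) c
    (by
      rintro _ ⟨m, hm, rfl⟩
      obtain ⟨x, hx, hx'⟩ := Set.mem_iUnion₂.1 (hF hm)
      exact ⟨⟨x, hx⟩, hx'⟩)
  have hsupp : ∀ a : G, (fun x => if h : x ∈ F then w ⟨x, h⟩ else 0) a ≠ 0 → a ∈ F := by
    intro a ha
    by_contra hcon
    simp [hcon] at ha
  set μ : G →₀ ℝ := Finsupp.onFinset F (fun x => if h : x ∈ F then w ⟨x, h⟩ else 0) hsupp with hμ
  have hsum : ∀ f : G → ℝ, ∑ x ∈ μ.support, μ x * f x = ∑ i : F, w i * f i.1 := by
    intro f
    have e1 : ∑ x ∈ μ.support, μ x * f x = ∑ x ∈ F, μ x * f x := by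
      refine Finset.sum_subset (fun x hx => hsupp x (Finsupp.mem_support_iff.1 hx)) ?_
      intro x _ hx
      rw [Finsupp.notMem_support_iff.1 hx, zero_mul]
    rw [e1, ← Finset.sum_coe_sort F (fun x => μ x * f x)]
    refine Finset.sum_congr rfl (fun i _ => ?_)
    have e2 : μ i.1 = w i := by
      rw [hμ, Finsupp.onFinset_apply]
      exact dif_pos i.2
    rw [e2]
  refine ⟨μ, ⟨fun x => ?_, ?_⟩, fun k hk => ?_⟩
  · rw [hμ, Finsupp.onFinset_apply]
    split_ifs
    · exact hw0 _
    · exact le_rfl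
  · have := hsum (fun _ => 1)
    simp only [mul_one] at this
    rw [this, hw1]
  · rw [hsum]
    exact hw _ ⟨k, hk, rfl⟩

/-- Density zero from the averaging lemma. -/
theorem is12_eq_zero {G : Type u} [Group G] {K : Set (Set G → ℝ)} (hK : Good K)
    (hmin : ∀ K', Good K' → K' ⊆ K → K' = K) (B : Set G) (a d : ℝ) (hd : 0 < d)
    (ha : ∀ ε : ℝ, 0 < ε → ∃ k ∈ K, k B < a + ε) {z : Set G → ℝ} (hz : z ∈ K) (A : Set G)
    (hA : ∀ g ∈ A, a + d ≤ tr g z B) (ha' : ∀ g : G, a ≤ tr g z B) : is12 A ≤ 0 := by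
  refine le_of_forall_pos_le_add (fun ε hε => ?_)
  obtain ⟨μ, hμ, hμK⟩ := exists_prob hK hmin B (a + d * ε) (ha _ (mul_pos hd hε))
  refine is12_le A μ hμ _ (fun y => ?_)
  rw [zero_add]
  have h1 := hμK (tr y⁻¹ z) (hK.2.2.2.2 _ _ hz)
  have h2 : d * mass μ ((fun a => a * y) '' A) ≤
      ∑ x ∈ μ.support, μ x * (tr x (tr y⁻¹ z) B - a) := by
    unfold mass
    rw [Finset.mul_sum]
    refine Finset.sum_le_sum (fun x _ => ?_)
    rw [tr_tr]
    by_cases hx : x ∈ (fun a => a * y) '' A
    · rw [Set.indicator_of_mem hx]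
      obtain ⟨g, hg, hgx⟩ := hx
      have hgx' : x * y⁻¹ = g := by
        rw [← hgx]
        simp
      have := hA g hg
      rw [hgx', mul_comm d]
      exact mul_le_mul_of_nonneg_left (by linarith) (hμ.1 x)
    · rw [Set.indicator_of_notMem hx, mul_zero]
      exact mul_nonneg (hμ.1 x) (sub_nonneg.2 (ha' _))
  have h3 : ∑ x ∈ μ.support, μ x * (tr x (tr y⁻¹ z) B - a) =
      ∑ x ∈ μ.support, μ x * tr x (tr y⁻¹ z) B - a := by
    simp only [mul_sub, Finset.sum_sub_distrib]
    rw [← Finset.sum_mul, hμ.2, one_mul]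
  rw [h3] at h2
  have h4 : d * mass μ ((fun a => a * y) '' A) ≤ d * ε := by linarith
  exact le_of_mul_le_mul_left h4 hd

theorem is12_nonneg {G : Type u} [Group G] (A : Set G) : 0 ≤ is12 A :=
  Real.iInf_nonneg (fun μ => Real.iSup_nonneg (fun _ => mass_nonneg μ.2 _))

/-- In a non-amenable group some set and its complement both have `is₁₂ = 0`. -/
theorem exists_two_small (G : Type u) [Group G] (h : ¬ IsAmenable G) :
    ∃ A : Set G, is12 A = 0 ∧ is12 Aᶜ = 0 := by
  obtain ⟨K, hK, hmin⟩ := exists_minimal G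
  have hK' := hK
  obtain ⟨hne, hcl, hconv, hsub, hinv⟩ := hK'
  -- some set is not constant on `K`
  have hB : ∃ B : Set G, ∃ k ∈ K, ∃ k' ∈ K, k B < k' B := by
    by_contra hcon
    push Not at hcon
    obtain ⟨m, hm⟩ := hne
    refine h ⟨m, (hsub hm).1, (hsub hm).2.1, (hsub hm).2.2, fun g A => ?_⟩
    have h1 : tr g m ((fun x => g * x) '' A) = m A := by
      unfold tr
      rw [Set.preimage_image_eq _ (mul_right_injective g)]
    have h2 := le_antisymm (hcon ((fun x => g * x) '' A) m hm (tr g m) (hinv g m hm))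
      (hcon ((fun x => g * x) '' A) (tr g m) (hinv g m hm) m hm)
    rw [← h1]
    exact h2.symm
  obtain ⟨B, k, hk, k', hk', hkk⟩ := hB
  have hbdd : BddBelow ((fun m : Set G → ℝ => m B) '' K) := by
    refine ⟨0, ?_⟩
    rintro _ ⟨m, hm, rfl⟩
    exact (hsub hm).1 B
  have hbdd' : BddBelow ((fun m : Set G → ℝ => m Bᶜ) '' K) := by
    refine ⟨0, ?_⟩
    rintro _ ⟨m, hm, rfl⟩
    exact (hsub hm).1 Bᶜ
  set a := sInf ((fun m : Set G → ℝ => m B) '' K) with ha
  set b := sInf ((fun m : Set G → ℝ => m Bᶜ) '' K) with hb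
  have hale : ∀ m ∈ K, a ≤ m B := fun m hm => csInf_le hbdd ⟨m, hm, rfl⟩
  have hble : ∀ m ∈ K, b ≤ m Bᶜ := fun m hm => csInf_le hbdd' ⟨m, hm, rfl⟩
  have haε : ∀ ε : ℝ, 0 < ε → ∃ m ∈ K, m B < a + ε := by
    intro ε hε
    obtain ⟨_, ⟨m, hm, rfl⟩, hlt⟩ := exists_lt_of_csInf_lt (hne.image (fun m : Set G → ℝ => m B))
      (show sInf ((fun m : Set G → ℝ => m B) '' K) < a + ε by rw [← ha]; linarith)
    exact ⟨m, hm, hlt⟩
  have hbε : ∀ ε : ℝ, 0 < ε → ∃ m ∈ K, m Bᶜ < b + ε := by
    intro ε hε
    obtain ⟨_, ⟨m, hm, rfl⟩, hlt⟩ := exists_lt_of_csInf_lt (hne.image (fun m : Set G → ℝ => m Bᶜ))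
      (show sInf ((fun m : Set G → ℝ => m Bᶜ) '' K) < b + ε by rw [← hb]; linarith)
    exact ⟨m, hm, hlt⟩
  -- `a + b < 1`
  have hab : a + b < 1 := by
    have h1 := hale k hk
    have h2 := hble k' hk'
    rw [means_compl (hsub hk')] at h2
    linarith
  have hcompl : ∀ g : G, ∀ m ∈ K, tr g m Bᶜ = 1 - tr g m B :=
    fun g m hm => means_compl (tr_mem_means g (hsub hm)) B
  obtain ⟨z, hz⟩ := hne
  set d : ℝ := (1 - a - b) / 2 with hd
  have hdpos : 0 < d := by
    rw [hd]
    linarith
  refine ⟨{g | a + d ≤ tr g z B}, le_antisymm ?_ (is12_nonneg _), le_antisymm ?_ (is12_nonneg _)⟩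
  · exact is12_eq_zero hK hmin B a d hdpos haε hz _ (fun g hg => hg)
      (fun g => hale _ (hinv g z hz))
  · refine is12_eq_zero hK hmin Bᶜ b d hdpos hbε hz _ (fun g hg => ?_)
      (fun g => hble _ (hinv g z hz))
    have hg' : tr g z B < a + d := not_le.1 hg
    rw [hcompl g z hz]
    have : 1 - (a + d) = b + d := by
      rw [hd]
      ring
    linarith

theorem is12_univ_pos (G : Type u) [Group G] : 0 < is12 (Set.univ : Set G) := by
  have hne : Nonempty {μ : G →₀ ℝ // IsProb μ} := by
    refine ⟨⟨Finsupp.single 1 1, fun x => ?_, ?_⟩⟩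
    · rw [Finsupp.single_apply]
      split_ifs <;> norm_num
    · rw [Finsupp.support_single _ one_ne_zero, Finset.sum_singleton,
        Finsupp.single_eq_same]
  refine lt_of_lt_of_le zero_lt_one (le_ciInf (fun μ => ?_))
  have h1 : ∀ y : G, mass μ.1 ((fun a => a * y) '' (Set.univ : Set G)) = 1 := by
    intro y
    have h2 : (fun a => a * y) '' (Set.univ : Set G) = Set.univ := by
      rw [Set.image_univ]
      exact (mul_right_surjective y).range_eq
    rw [h2]
    unfold mass
    simp only [Set.indicator_univ]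
    exact μ.2.2
  simp only [h1]
  rw [ciSup_const]

/-- Property (a): for every `n ≥ 1` and every partition of `G` into `n` nonempty cells
`{x | c x = i}`, `i < n`, some cell has `is₁₂ ≥ 1/n`. -/
def PropertyA (G : Type u) [Group G] : Prop :=
  ∀ n : ℕ, 1 ≤ n → ∀ c : G → Fin n, Function.Surjective c →
    ∃ i : Fin n, 1 / (n : ℝ) ≤ is12 {x | c x = i}

/-- Property (d): for every `n ≥ 1` and every partition of `G` into `n` nonempty cells
`{x | c x = i}`, `i < n`, some cell has `is₁₂ > 0`. -/
def PropertyD (G : Type u) [Group G] : Prop :=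
  ∀ n : ℕ, 1 ≤ n → ∀ c : G → Fin n, Function.Surjective c → ∃ i : Fin n, 0 < is12 {x | c x = i}

theorem amenable_of_propertyD (G : Type u) [Group G] (h : PropertyD G) : IsAmenable G := by
  by_contra hna
  obtain ⟨A, h1, h2⟩ := exists_two_small G hna
  have hAne : A.Nonempty := by
    rw [Set.nonempty_iff_ne_empty]
    intro hA
    rw [hA, Set.compl_empty] at h2
    exact (is12_univ_pos G).ne' h2
  have hAne' : Aᶜ.Nonempty := by
    rw [Set.nonempty_iff_ne_empty]
    intro hA
    rw [Set.compl_empty_iff] at hA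
    rw [hA] at h1
    exact (is12_univ_pos G).ne' h1
  obtain ⟨i, hi⟩ := h 2 (by norm_num) (fun x => if x ∈ A then 0 else 1) (by
    intro i
    fin_cases i
    · obtain ⟨x, hx⟩ := hAne
      exact ⟨x, if_pos hx⟩
    · obtain ⟨x, hx⟩ := hAne'
      exact ⟨x, if_neg hx⟩)
  fin_cases i
  · have h3 : {x : G | (if x ∈ A then (0 : Fin 2) else 1) = 0} = A := by
      ext x
      simp
    simp only [Fin.zero_eta] at hi
    rw [h3, h1] at hi
    exact lt_irrefl _ hi
  · have h3 : {x : G | (if x ∈ A then (0 : Fin 2) else 1) = 1} = Aᶜ := by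
      ext x
      simp
    simp only [Fin.mk_one] at hi
    rw [h3, h2] at hi
    exact lt_irrefl _ hi

/-- Every non-amenable group is the union of a set and its complement that both have `is₁₂ = 0`;
in particular every group with property (d) is amenable, and every group with property (a) is
amenable. -/
theorem result (G : Type u) [Group G] :
    (¬ IsAmenable G → ∃ A : Set G, is12 A = 0 ∧ is12 Aᶜ = 0) ∧
      (PropertyD G → IsAmenable G) ∧ (PropertyA G → IsAmenable G) := by
  refine ⟨exists_two_small G, amenable_of_propertyD G, fun h => amenable_of_propertyD G ?_⟩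
  intro n hn c hc
  obtain ⟨i, hi⟩ := h n hn c hc
  have hnr : (0 : ℝ) < n := by exact_mod_cast hn
  exact ⟨i, lt_of_lt_of_le (by positivity) hi⟩

end Pool.Agent.Results.MP_d97def_al.TwoSmallCells
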